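import Pool.Agent.H32.FROp

set_option autoImplicit false

open Filter Topology

namespace Pool.Agent.Results.MP_cd1425_an.FRecSum

/-- vectors all of whose return sets have positive lower density -/
def FRec {X : Type} [TopologicalSpace X] (T : X → X) : Set X :=
  {x | ∀ U ∈ 𝓝 x, ∃ δ : ℝ, 0 < δ ∧ ∃ N₀ : ℕ, ∀ N : ℕ, N₀ ≤ N →
    δ * (N : ℝ) ≤ (({n : ℕ | 1 ≤ n ∧ n ≤ N ∧ T^[n] x ∈ U}.ncard : ℕ) : ℝ)}

/-- vectors all of whose return sets have positive upper density -/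
def UFRec {X : Type} [TopologicalSpace X] (T : X → X) : Set X :=
  {x | ∀ U ∈ 𝓝 x, ∃ δ : ℝ, 0 < δ ∧ ∀ N₀ : ℕ, ∃ N : ℕ, N₀ < N ∧
    δ * (N : ℝ) ≤ (({n : ℕ | 1 ≤ n ∧ n ≤ N ∧ T^[n] x ∈ U}.ncard : ℕ) : ℝ)}

open Pool.Agent.H32.FR in
/-- A frequently recurrent operator whose direct square is not even U-frequently recurrent. -/
theorem result (𝕜 : Type) [RCLike 𝕜] :
    ∃ (X : Type) (_ : NormedAddCommGroup X) (_ : NormedSpace 𝕜 X) (_ : CompleteSpace X)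
      (T : X →L[𝕜] X), Dense (FRec T) ∧ ¬Dense (UFRec fun p : X × X => (T p.1, T p.2)) := by
  refine ⟨X 𝕜, inferInstance, inferInstance, inferInstance, T 𝕜, by
    simpa only [FRec, ← FunLike.coe_pow_eq_iterate] using dense_frec, fun H => ?_⟩
  obtain ⟨⟨x, y⟩, h1, h2⟩ := H.inter_open_nonempty
    {p : X 𝕜 × X 𝕜 | p.1.1.1 * p.2.1.2 - p.1.1.2 * p.2.1.1 ≠ 0} (isOpen_ne_fun (by fun_prop)
      continuous_const) ⟨(((1, 0), 0), ((0, 1), 0)), by simp⟩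
  have it : ∀ (n : ℕ) (p : X 𝕜 × X 𝕜), (fun p : X 𝕜 × X 𝕜 => (T 𝕜 p.1, T 𝕜 p.2))^[n] p =
      ((T 𝕜 ^ n) p.1, (T 𝕜 ^ n) p.2) := fun n => by
    induction n with
    | zero => exact fun _ => rfl
    | succ n ih => exact fun p => ih _
  rw [Set.mem_ofPred_eq] at h1
  dsimp only at h1
  let D := x.1.1 * y.1.2 - x.1.2 * y.1.1
  let f : X 𝕜 × X 𝕜 → X 𝕜 := fun p => (y.1.2 / D) • p.1 - (x.1.2 / D) • p.2
  refine not_ufrec (x := f (x, y)) (Prod.ext ?_ ?_) fun W hW => ?_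
  · simp only [f, D, Prod.fst_sub, Prod.smul_fst, smul_eq_mul]
    rw [div_mul_eq_mul_div, div_mul_eq_mul_div, ← sub_div, mul_comm y.1.2, div_self h1]
  · simp only [f, D, Prod.fst_sub, Prod.smul_fst, Prod.snd_sub, Prod.smul_snd, smul_eq_mul]
    ring
  · simpa only [it, f, map_sub, map_smul, Set.mem_preimage] using
      h2 (f ⁻¹' W) ((show Continuous f by fun_prop).continuousAt hW)

end Pool.Agent.Results.MP_cd1425_an.FRecSum
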