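import Pool.Agent.H32.URec

set_option autoImplicit false

open Filter Topology

namespace Pool.Agent.Results.MP_cd1425_an.URecSum

/-- the uniformly recurrent vectors of a map -/
def URec {X : Type} [TopologicalSpace X] (T : X → X) : Set X :=
  {x | ∀ U ∈ 𝓝 x, ∃ g : ℕ, ∀ k : ℕ, ∃ m : ℕ, k ≤ m ∧ m ≤ k + g ∧ T^[m] x ∈ U}

/-- Finite direct sums of a uniformly recurrent operator are uniformly recurrent. -/
theorem result (𝕜 : Type) [RCLike 𝕜] (X : Type) [AddCommGroup X] [Module 𝕜 X] [UniformSpace X]
    [IsUniformAddGroup X] [ContinuousSMul 𝕜 X] [CompleteSpace X]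
    [TopologicalSpace.MetrizableSpace X] (T : X →L[𝕜] X) (h : Dense (URec T)) (n : ℕ) :
    Dense (URec fun (y : Fin n → X) (i : Fin n) => T (y i)) := by
  have := IsUniformAddGroup.uniformity_countably_generated (α := X)
  let := UniformSpace.pseudoMetricSpace X
  have it : ∀ (m : ℕ) (y : Fin n → X) (i : Fin n),
      (fun (y : Fin n → X) (i : Fin n) => T (y i))^[m] y i = T^[m] (y i) := fun m => by
    induction m with
    | zero => exact fun _ _ => rfl
    | succ m ih => exact fun y i => ih _ i
  refine ((dense_pi Set.univ fun _ _ => h).mono (s₂ := closure _) fun x hx => ?_).of_closure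
  obtain ⟨q, hq, k⟩ := Pool.Agent.H32.URec.joint T.continuous x fun i => hx i trivial
  refine closure_mono (fun z hz => ?_) ((closure_pi_set Set.univ _).ge fun i _ => k i)
  choose y hy using fun i => hz i trivial
  exact Pool.Agent.H32.URec.ur_of_good (y := y) (by fun_prop) hq
    (tendsto_pi_nhds.2 fun i => by simpa only [it] using hy i)

end Pool.Agent.Results.MP_cd1425_an.URecSum
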